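import Pool.Agent.H.MP_1cee73_an.One

open scoped ENNReal

namespace Pool.Agent.Results.MP_1cee73_an.Exact

variable {X : Type} [NormedAddCommGroup X] [NormedSpace ℝ X]

/-- The numerical radius of a bounded operator on a real normed space. -/
noncomputable def numRad (T : X →L[ℝ] X) : ℝ :=
  sSup {r | ∃ (x : X) (f : StrongDual ℝ X), ‖x‖ = 1 ∧ ‖f‖ = 1 ∧ f x = 1 ∧ r = |f (T x)|}

/-- The norm of the class of T modulo the operators of numerical radius zero. -/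
noncomputable def quotNorm (T : X →L[ℝ] X) : ℝ :=
  sInf {r | ∃ S : X →L[ℝ] X, numRad S = 0 ∧ r = ‖T + S‖}

/-- The second numerical index. -/
noncomputable def secondIndex (X : Type) [NormedAddCommGroup X] [NormedSpace ℝ X] : ℝ :=
  sInf {r | ∃ T : X →L[ℝ] X, quotNorm T = 1 ∧ r = numRad T}

open Pool.Agent.H.MP_1cee73_an

lemma le_numRad (T : X →L[ℝ] X) (x : X) (f : StrongDual ℝ X) (h : St x f) :
    |f (T x)| ≤ numRad T := by
  refine le_csSup ⟨‖T‖, ?_⟩ ⟨x, f, h.1, h.2.1, h.2.2, rfl⟩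
  rintro r ⟨y, g, hy, hg, -, rfl⟩
  have a := g.le_opNorm (T y)
  have b := T.le_opNorm y
  rw [hg, one_mul] at a
  rw [hy, mul_one] at b
  exact a.trans b

lemma numRad_le (T : X →L[ℝ] X) (c : ℝ) (hc : 0 ≤ c) (h : ∀ x f, St x f → |f (T x)| ≤ c) :
    numRad T ≤ c := by
  refine Real.sSup_le ?_ hc
  rintro r ⟨y, g, hy, hg, hgy, rfl⟩
  exact h y g ⟨hy, hg, hgy⟩

lemma numRad_nonneg (T : X →L[ℝ] X) : 0 ≤ numRad T := by
  refine Real.sSup_nonneg ?_
  rintro r ⟨y, g, -, -, -, rfl⟩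
  exact abs_nonneg _

lemma numRad_zero (S : X →L[ℝ] X) : numRad S = 0 ↔ ∀ x f, St x f → f (S x) = 0 :=
  ⟨fun h x f hf => abs_nonpos_iff.1 (h ▸ le_numRad S x f hf),
    fun h => le_antisymm (numRad_le S 0 le_rfl fun x f hf => by simp [h x f hf]) (numRad_nonneg S)⟩

lemma quot_le (hU : Up X) (T : X →L[ℝ] X) : quotNorm T ≤ K * numRad T := by
  obtain ⟨S, h1, h2⟩ := hU T _ (numRad_nonneg T) (le_numRad T)
  refine le_trans ?_ h2
  refine csInf_le ⟨0, ?_⟩ ⟨S, (numRad_zero S).2 h1, rfl⟩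
  rintro r ⟨S', -, rfl⟩
  exact norm_nonneg _

lemma index_eq (hU : Up X) (hE : Ex X) : secondIndex X = K⁻¹ := by
  have hK : 0 < K := by linarith [K_ge]
  have low : ∀ T : X →L[ℝ] X, quotNorm T = 1 → K⁻¹ ≤ numRad T := fun T hT => by
    have := quot_le hU T
    rw [hT] at this
    rwa [inv_le_iff_one_le_mul₀' hK]
  obtain ⟨T, h1, h2⟩ := hE
  have v0 : numRad (K⁻¹ • T) ≤ K⁻¹ := numRad_le _ _ (inv_pos.2 hK).le fun x f hf => by
    rw [smul_apply, map_smul, smul_eq_mul, abs_mul, abs_of_pos (inv_pos.2 hK)]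
    exact mul_le_of_le_one_right (inv_pos.2 hK).le (h1 x f hf)
  have q0 : quotNorm (K⁻¹ • T) = 1 := by
    apply le_antisymm
    · refine (quot_le hU _).trans ?_
      have := mul_le_mul_of_nonneg_left v0 hK.le
      rwa [mul_inv_cancel₀ hK.ne'] at this
    · refine le_csInf ⟨_, 0, (numRad_zero 0).2 (by simp), rfl⟩ ?_
      rintro r ⟨S, hS, rfl⟩
      have := h2 (K • S) fun x f hf => by
        rw [smul_apply, map_smul, (numRad_zero S).1 hS x f hf, smul_zero]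
      have e : T + K • S = K • (K⁻¹ • T + S) := by
        rw [smul_add, smul_smul, mul_inv_cancel₀ hK.ne', one_smul]
      rw [e, norm_smul, Real.norm_eq_abs, abs_of_pos hK] at this
      exact le_of_mul_le_mul_left (by linarith) hK
  apply le_antisymm
  · refine le_trans ?_ v0
    refine csInf_le ⟨K⁻¹, ?_⟩ ⟨_, q0, rfl⟩
    rintro r ⟨T', h, rfl⟩
    exact low T' h
  · refine le_csInf ⟨_, _, q0, rfl⟩ ?_
    rintro r ⟨T', h, rfl⟩
    exact low T' h

theorem result :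
    secondIndex (WithLp 1 (ℂ × ℂ)) = 9 * √21 / 49 ∧ secondIndex (ℂ × ℂ) = 9 * √21 / 49 ∧
      (∀ y w : ℂ, ‖(WithLp.toLp 1 (y, w) : WithLp 1 (ℂ × ℂ))‖ = ‖y‖ + ‖w‖) ∧
      (∀ y w : ℂ, ‖((y, w) : ℂ × ℂ)‖ = max ‖y‖ ‖w‖) := by
  have e : K⁻¹ = 9 * √21 / 49 := by
    have h1 := s21
    have h2 := s21_ge
    unfold K
    rw [inv_eq_iff_eq_inv, inv_div, div_eq_div_iff (by norm_num) (by linarith)]
    linear_combination 63 * h1
  exact ⟨e ▸ index_eq upL exL, e ▸ index_eq upS exS, fun y w => WithLp.prod_norm_eq_of_L1 _,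
    fun y w => rfl⟩

end Pool.Agent.Results.MP_1cee73_an.Exact
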